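import Mathlib

/-!
# Determinants with entries `(j^2 - k^2)^m (j^2 - k^2 / p)` modulo `p`
-/

set_option autoImplicit false

namespace Pool.Agent.Q23.LD

open Finset Matrix Equiv

/-- the folded binomial coefficient -/
def cc (n m b : ℕ) : ℤ :=
  ∑ i ∈ (range (n + m + 1)).filter (fun i => i % n = b), (-1) ^ i * ((n + m).choose i : ℤ)

/-- the reflection `b ↦ m - b` modulo `n` -/
def sg (n m : ℕ) (hn : 0 < n) : Perm (Fin n) where
  toFun b := ⟨(n + m - b) % n, Nat.mod_lt _ hn⟩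
  invFun b := ⟨(n + m - b) % n, Nat.mod_lt _ hn⟩
  left_inv b := by
    apply Fin.ext
    simp only
    have hb := b.2
    have h1 : (n + m - (n + m - (b : ℕ)) % n) % n = (b : ℕ) % n := by
      have h2 : (n + m - (b : ℕ)) % n < n := Nat.mod_lt _ hn
      have h3 := Nat.div_add_mod (n + m - (b : ℕ)) n
      have h4 : n + m - (n + m - (b : ℕ)) % n = b + n * ((n + m - (b : ℕ)) / n) := by omega
      rw [h4, Nat.add_mul_mod_self_left]
    rw [h1, Nat.mod_eq_of_lt hb]
  right_inv b := by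
    apply Fin.ext
    simp only
    have hb := b.2
    have h1 : (n + m - (n + m - (b : ℕ)) % n) % n = (b : ℕ) % n := by
      have h2 : (n + m - (b : ℕ)) % n < n := Nat.mod_lt _ hn
      have h3 := Nat.div_add_mod (n + m - (b : ℕ)) n
      have h4 : n + m - (n + m - (b : ℕ)) % n = b + n * ((n + m - (b : ℕ)) / n) := by omega
      rw [h4, Nat.add_mul_mod_self_left]
    rw [h1, Nat.mod_eq_of_lt hb]

lemma sg_val (n m : ℕ) (hn : 0 < n) (b : Fin n) : ((sg n m hn b : Fin n) : ℕ) = (n + m - b) % n := rfl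

lemma sg_sq (n m : ℕ) (hn : 0 < n) : (sg n m hn) ^ 2 = 1 := by
  apply Equiv.ext
  intro b
  rw [sq, Perm.mul_apply]
  exact (sg n m hn).left_inv b

lemma sg_sg (n m : ℕ) (hn : 0 < n) (b : Fin n) : sg n m hn (sg n m hn b) = b :=
  (sg n m hn).left_inv b

/-- the coefficient matrix -/
def KK (n m : ℕ) : Matrix (Fin n) (Fin n) ℤ :=
  Matrix.of fun a b => ∑ i ∈ range (n + m + 1),
    if (n + m - i) % n = (a : ℕ) ∧ i % n = (b : ℕ) then (-1) ^ i * ((n + m).choose i : ℤ) else 0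

lemma KK_eq (n m : ℕ) (hn : 0 < n) :
    KK n m = (Matrix.diagonal fun b : Fin n => cc n m b).submatrix (sg n m hn) id := by
  ext a b
  rw [submatrix_apply, id, diagonal_apply, KK, of_apply]
  have key : ∀ i ∈ range (n + m + 1), i % n = (b : ℕ) →
      ((n + m - i) % n = (a : ℕ) ↔ sg n m hn a = b) := by
    intro i hi hib
    rw [mem_range] at hi
    have h1 : (n + m - i) % n = ((sg n m hn b : Fin n) : ℕ) := by
      rw [sg_val]
      have h2 := Nat.div_add_mod i n
      have h3 : n + m - (b : ℕ) = (n + m - i) + n * (i / n) := by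
        have := b.2; omega
      rw [h3, Nat.add_mul_mod_self_left]
    rw [h1]
    constructor
    · intro h
      have h4 : sg n m hn b = a := Fin.ext h
      rw [← h4, sg_sg]
    · intro h
      rw [← h, sg_sg]
  by_cases hab : sg n m hn a = b
  · rw [if_pos hab, hab, cc, sum_filter]
    apply sum_congr rfl
    intro i hi
    by_cases hib : i % n = (b : ℕ)
    · rw [if_pos ⟨(key i hi hib).2 hab, hib⟩, if_pos hib]
    · rw [if_neg (fun h => hib h.2), if_neg hib]
  · rw [if_neg hab]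
    apply sum_eq_zero
    intro i hi
    rw [if_neg]
    rintro ⟨h1, h2⟩
    exact hab ((key i hi h2).1 h1)

lemma det_KK (n m : ℕ) (hn : 0 < n) :
    (KK n m).det = Perm.sign (sg n m hn) * ∏ b : Fin n, cc n m b := by
  rw [KK_eq n m hn, det_permute, det_diagonal]
  simp

/-- expansion of the power of a difference for `n`-th roots of unity -/
lemma sub_pow_expand {R : Type*} [CommRing R] (n m : ℕ) (hn : 0 < n) (x y : R) (hx : x ^ n = 1)
    (hy : y ^ n = 1) :
    (x - y) ^ (n + m) = ∑ a : Fin n, ∑ b : Fin n, x ^ (a : ℕ) * (KK n m a b : R) * y ^ (b : ℕ) := by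
  have h1 : (x - y) ^ (n + m) = ∑ i ∈ range (n + m + 1),
      x ^ ((n + m - i) % n) * ((-1) ^ i * ((n + m).choose i : R)) * y ^ (i % n) := by
    rw [sub_eq_add_neg, add_comm, add_pow]
    apply sum_congr rfl
    intro i _
    rw [← pow_eq_pow_mod (n + m - i) hx, ← pow_eq_pow_mod i hy, neg_pow y]
    ring
  rw [h1]
  have h2 : ∀ a b : Fin n, x ^ (a : ℕ) * (KK n m a b : R) * y ^ (b : ℕ) =
      ∑ i ∈ range (n + m + 1), if (n + m - i) % n = (a : ℕ) ∧ i % n = (b : ℕ) then
        x ^ ((n + m - i) % n) * ((-1) ^ i * ((n + m).choose i : R)) * y ^ (i % n) else 0 := by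
    intro a b
    rw [KK, of_apply, Int.cast_sum, mul_sum, sum_mul]
    apply sum_congr rfl
    intro i _
    split_ifs with h
    · rw [h.1, h.2]; push_cast; ring
    · simp
  simp_rw [h2]
  rw [sum_congr rfl (fun a _ => sum_comm), sum_comm]
  apply sum_congr rfl
  intro i _
  rw [sum_eq_single (⟨(n + m - i) % n, Nat.mod_lt _ hn⟩ : Fin n)]
  · rw [sum_eq_single (⟨i % n, Nat.mod_lt _ hn⟩ : Fin n)]
    · rw [if_pos ⟨rfl, rfl⟩]
    · intro b _ hb
      rw [if_neg]
      rintro ⟨_, h⟩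
      exact hb (Fin.ext h.symm)
    · intro h; exact absurd (mem_univ _) h
  · intro a _ ha
    apply sum_eq_zero
    intro b _
    rw [if_neg]
    rintro ⟨h, _⟩
    exact ha (Fin.ext h.symm)
  · intro h; exact absurd (mem_univ _) h

/-- determinants of powers of differences of `n`-th roots of unity -/
lemma det_sub_pow {R : Type*} [CommRing R] (n m : ℕ) (hn : 0 < n) (x : Fin n → R)
    (hx : ∀ j, x j ^ n = 1) :
    (Matrix.of fun j k : Fin n => (x j - x k) ^ (n + m)).det =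
      (vandermonde x).det ^ 2 * ((Perm.sign (sg n m hn) : ℤ) * ∏ b : Fin n, (cc n m b : ℤ) : ℤ) := by
  have h1 : (Matrix.of fun j k : Fin n => (x j - x k) ^ (n + m)) =
      vandermonde x * (KK n m).map (Int.castRingHom R) * (vandermonde x)ᵀ := by
    ext j k
    rw [of_apply, sub_pow_expand n m hn _ _ (hx j) (hx k), mul_apply, sum_comm]
    apply sum_congr rfl
    intro b _
    rw [mul_apply, sum_mul]
    apply sum_congr rfl
    intro a _
    rw [vandermonde_apply, transpose_apply, vandermonde_apply, map_apply]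
    simp
  rw [h1, det_mul, det_mul, det_transpose, ← det_KK n m hn]
  have h2 : ((KK n m).map (Int.castRingHom R)).det = ((KK n m).det : R) := by
    rw [← RingHom.mapMatrix_apply, ← RingHom.map_det]
    simp
  rw [h2]
  ring

/-- The matrix of the problem. -/
def MM (m p : ℕ) [Fact p.Prime] : Matrix (Fin ((p - 1) / 2)) (Fin ((p - 1) / 2)) ℤ :=
  Matrix.of fun j k =>
    ((((j : ℕ) : ℤ) + 1) ^ 2 - (((k : ℕ) : ℤ) + 1) ^ 2) ^ m *
      legendreSym p ((((j : ℕ) : ℤ) + 1) ^ 2 - (((k : ℕ) : ℤ) + 1) ^ 2)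

/-- the squares modulo `p` -/
def xx (p n : ℕ) (j : Fin n) : ZMod p := ((j : ℕ) + 1 : ZMod p) ^ 2

lemma cast_ne_zero' {p : ℕ} {a : ℕ} (h0 : 0 < a) (h : a < p) : (a : ZMod p) ≠ 0 := by
  rw [Ne, ZMod.natCast_eq_zero_iff]
  exact fun hd => absurd (Nat.le_of_dvd h0 hd) (by omega)

lemma xx_pow {p : ℕ} [Fact p.Prime] (hp : p ≠ 2) (j : Fin ((p - 1) / 2)) :
    xx p _ j ^ ((p - 1) / 2) = 1 := by
  have h1 : (p - 1) / 2 * 2 = p - 1 := by
    have := (Fact.out : p.Prime).eq_two_or_odd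
    omega
  have h2 : ((j : ℕ) + 1 : ZMod p) ≠ 0 := by
    have := cast_ne_zero' (p := p) (a := j + 1) (by omega) (by have := j.2; omega)
    exact_mod_cast this
  rw [xx, ← pow_mul, mul_comm 2, h1]
  exact ZMod.pow_card_sub_one_eq_one h2

lemma xx_inj {p : ℕ} [Fact p.Prime] (hp : p ≠ 2) : Function.Injective (xx p ((p - 1) / 2)) := by
  intro j k h
  have hj := j.2
  have hk := k.2
  rw [xx, xx, sq_eq_sq_iff_eq_or_eq_neg] at h
  rcases h with h | h
  · have h1 : ((j : ℕ) : ZMod p) = ((k : ℕ) : ZMod p) := by linear_combination h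
    rw [ZMod.natCast_eq_natCast_iff'] at h1
    rw [Nat.mod_eq_of_lt (by omega), Nat.mod_eq_of_lt (by omega)] at h1
    exact Fin.ext h1
  · exfalso
    have h1 : (((j : ℕ) + 1 + ((k : ℕ) + 1) : ℕ) : ZMod p) = 0 := by
      push_cast
      linear_combination h
    exact cast_ne_zero' (p := p) (by omega) (by omega) h1

lemma det_MM (m p : ℕ) [Fact p.Prime] (hp : p ≠ 2) (hn : 0 < (p - 1) / 2) :
    ((MM m p).det : ZMod p) = (vandermonde (xx p ((p - 1) / 2))).det ^ 2 *
      ((Perm.sign (sg ((p - 1) / 2) m hn) : ℤ) *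
        ∏ b : Fin ((p - 1) / 2), (cc ((p - 1) / 2) m b : ℤ) : ℤ) := by
  rw [← det_sub_pow ((p - 1) / 2) m hn (xx p _) (xx_pow hp)]
  have h2 : ((MM m p).det : ZMod p) = ((MM m p).map (Int.castRingHom (ZMod p))).det := by
    rw [← RingHom.mapMatrix_apply, ← RingHom.map_det]
    simp
  rw [h2]
  congr 1
  ext j k
  rw [map_apply, MM, of_apply, of_apply]
  simp only [map_mul, map_pow, map_sub, eq_intCast]
  rw [legendreSym.eq_pow]
  have h3 : p / 2 = (p - 1) / 2 := by
    have := (Fact.out : p.Prime).eq_two_or_odd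
    omega
  rw [h3, add_comm ((p - 1) / 2) m, pow_add]
  simp [xx]

lemma det_MM_eq_zero_iff (m p : ℕ) [Fact p.Prime] (hp : p ≠ 2) :
    (p : ℤ) ∣ (MM m p).det ↔ ∃ b < (p - 1) / 2, (p : ℤ) ∣ cc ((p - 1) / 2) m b := by
  have hn : 0 < (p - 1) / 2 := by
    have := (Fact.out : p.Prime).two_le; omega
  rw [← ZMod.intCast_zmod_eq_zero_iff_dvd, det_MM m p hp hn]
  have hV : (vandermonde (xx p ((p - 1) / 2))).det ≠ 0 :=
    det_vandermonde_ne_zero_iff.2 (xx_inj hp)
  rw [mul_eq_zero, or_iff_right (pow_ne_zero 2 hV)]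
  push_cast
  rw [mul_eq_zero, prod_eq_zero_iff]
  have hs : (((Perm.sign (sg ((p - 1) / 2) m hn) : ℤˣ) : ℤ) : ZMod p) ≠ 0 := by
    rcases Int.units_eq_one_or (Perm.sign (sg ((p - 1) / 2) m hn)) with h | h <;> rw [h] <;> simp
  rw [or_iff_right hs]
  constructor
  · rintro ⟨b, _, hb⟩
    exact ⟨b, b.2, by rwa [← ZMod.intCast_zmod_eq_zero_iff_dvd]⟩
  · rintro ⟨b, hb, h⟩
    exact ⟨⟨b, hb⟩, mem_univ _, by rwa [← ZMod.intCast_zmod_eq_zero_iff_dvd] at h⟩

end Pool.Agent.Q23.LD
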