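import Pool.Agent.Q23.LD.Crit

/-!
# The primes dividing the determinants with entries `(j^2 - k^2)^m (j^2 - k^2 / p)`
-/

set_option autoImplicit false

namespace Pool.Agent.Q23.LD

open Finset

/-- `2^b b! binom(m - 1/2, b)` -/
def AA (m b : ℕ) : ℕ := ∏ i ∈ range b, (2 * m - 1 - 2 * i)

/-- `2^m m! binom(m - 1/2, b)` -/
def BB (m b : ℕ) : ℕ := 2 ^ (m - b) * m.descFactorial (m - b) * AA m b

lemma AA_pos {m b : ℕ} (h : b ≤ m) : 0 < AA m b := by
  unfold AA
  apply prod_pos
  intro i hi
  rw [mem_range] at hi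
  omega

lemma BB_pos {m b : ℕ} (h : b ≤ m) : 0 < BB m b := by
  unfold BB
  have h1 := AA_pos h
  have h2 : 0 < m.descFactorial (m - b) := by
    rw [Nat.pos_iff_ne_zero, Ne, Nat.descFactorial_eq_zero_iff_lt]
    omega
  positivity

lemma cast_AA {p n m b : ℕ} (hp : p = 2 * n + 1) (h : b ≤ m) :
    ((2 ^ b * b.factorial * (n + m).choose b : ℕ) : ZMod p) = (AA m b : ZMod p) := by
  have h1 : 2 ^ b * b.factorial * (n + m).choose b = ∏ i ∈ range b, (2 * (n + m - i)) := by
    rw [prod_mul_distrib, prod_const, card_range, ← Nat.descFactorial_eq_prod_range,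
      Nat.descFactorial_eq_factorial_mul_choose]
    ring
  rw [h1, AA, Nat.cast_prod, Nat.cast_prod]
  apply prod_congr rfl
  intro i hi
  rw [mem_range] at hi
  have h2 : 2 * (n + m - i) = (2 * m - 1 - 2 * i) + p := by omega
  rw [h2, Nat.cast_add]
  simp

lemma cast_BB {p n m b : ℕ} (hp : p = 2 * n + 1) (h : b ≤ m) :
    ((2 ^ m * m.factorial * (n + m).choose b : ℕ) : ZMod p) = (BB m b : ZMod p) := by
  have h1 : 2 ^ m * m.factorial * (n + m).choose b =
      2 ^ (m - b) * m.descFactorial (m - b) * (2 ^ b * b.factorial * (n + m).choose b) := by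
    have h2 : 2 ^ m = 2 ^ (m - b) * 2 ^ b := by
      rw [← pow_add]; congr 1; omega
    have h3 : m.factorial = b.factorial * m.descFactorial (m - b) := by
      have := Nat.factorial_mul_descFactorial (n := m) (k := m - b) (by omega)
      rw [show m - (m - b) = b by omega] at this
      exact this.symm
    rw [h2, h3]
    ring
  rw [h1, Nat.cast_mul, cast_AA hp h, BB, ← Nat.cast_mul]

lemma cc_big {n m b : ℕ} (hn : m < n) (hb : b < n) (hm : m < b) :
    cc n m b = (-1) ^ b * ((n + m).choose b : ℤ) := by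
  unfold cc
  rw [sum_eq_single_of_mem b]
  · rw [mem_filter, mem_range]
    exact ⟨by omega, Nat.mod_eq_of_lt hb⟩
  · intro i hi hib
    exfalso
    rw [mem_filter, mem_range] at hi
    have h1 := Nat.div_add_mod i n
    rw [hi.2] at h1
    rcases Nat.eq_zero_or_pos (i / n) with h2 | h2
    · rw [h2] at h1
      exact hib (by omega)
    · have h3 : n ≤ n * (i / n) := Nat.le_mul_of_pos_right _ h2
      omega

lemma cc_small {n m b : ℕ} (hn : m < n) (he : Even n) (hm : b ≤ m) :
    cc n m b = (-1) ^ b * (((n + m).choose b : ℤ) + ((n + m).choose (m - b) : ℤ)) := by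
  unfold cc
  have h0 : (range (n + m + 1)).filter (fun i => i % n = b) = {b, n + b} := by
    ext i
    rw [mem_filter, mem_range, mem_insert, mem_singleton]
    constructor
    · rintro ⟨h1, h2⟩
      have h3 := Nat.div_add_mod i n
      rw [h2] at h3
      rcases Nat.lt_or_ge (i / n) 2 with h4 | h4
      · interval_cases (i / n)
        · left; omega
        · right; omega
      · exfalso
        have : n * 2 ≤ n * (i / n) := Nat.mul_le_mul_left _ h4
        omega
    · rintro (rfl | rfl)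
      · exact ⟨by omega, Nat.mod_eq_of_lt (by omega)⟩
      · exact ⟨by omega, by rw [Nat.add_mod_left, Nat.mod_eq_of_lt (by omega)]⟩
  rw [h0, sum_pair (by omega)]
  have h1 : (n + m).choose (n + b) = (n + m).choose (m - b) := by
    rw [← Nat.choose_symm (show n + b ≤ n + m by omega)]
    congr 1
    omega
  rw [h1, pow_add, he.neg_one_pow]
  ring

/-- the criterion for large primes -/
lemma dvd_iff {p m : ℕ} [Fact p.Prime] (h4 : p % 4 = 1) (hm : 2 * m + 1 < p) :
    (p : ℤ) ∣ (MM m p).det ↔ ∃ b ≤ m, p ∣ BB m b + BB m (m - b) := by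
  have hpp := (Fact.out : p.Prime)
  obtain ⟨n, hn⟩ : ∃ n, p = 2 * n + 1 := ⟨p / 2, by omega⟩
  have hn2 : (p - 1) / 2 = n := by omega
  have hmn : m < n := by omega
  have hne : Even n := by
    rw [Nat.even_iff]; omega
  rw [det_MM_eq_zero_iff m p (by omega), hn2]
  have hpf : ¬ p ∣ 2 ^ m * m.factorial := by
    rw [hpp.dvd_mul]
    push Not
    refine ⟨fun h => ?_, fun h => ?_⟩
    · have := Nat.le_of_dvd (by norm_num) (hpp.dvd_of_dvd_pow h)
      omega
    · have := (hpp.dvd_factorial).1 h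
      omega
  have key : ∀ b ≤ m, ((p : ℤ) ∣ cc n m b ↔ p ∣ BB m b + BB m (m - b)) := by
    intro b hb
    rw [cc_small hmn hne hb]
    have h1 : (p : ℤ) ∣ (-1) ^ b * (((n + m).choose b : ℤ) + ((n + m).choose (m - b) : ℤ)) ↔
        p ∣ (n + m).choose b + (n + m).choose (m - b) := by
      have h2 : IsUnit ((-1 : ℤ) ^ b) := (isUnit_one.neg).pow b
      rw [h2.dvd_mul_left]
      exact_mod_cast Int.natCast_dvd_natCast
    rw [h1]
    have h3 : ((2 ^ m * m.factorial * ((n + m).choose b + (n + m).choose (m - b)) : ℕ) : ZMod p) =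
        ((BB m b + BB m (m - b) : ℕ) : ZMod p) := by
      rw [mul_add, Nat.cast_add, cast_BB hn hb, cast_BB hn (show m - b ≤ m by omega), Nat.cast_add]
    rw [← ZMod.natCast_eq_zero_iff (BB m b + BB m (m - b)), ← h3, ZMod.natCast_eq_zero_iff,
      hpp.dvd_mul, or_iff_right hpf]
  constructor
  · rintro ⟨b, hb, h⟩
    rcases Nat.lt_or_ge m b with h1 | h1
    · exfalso
      rw [cc_big hmn hb h1] at h
      have h2 : IsUnit ((-1 : ℤ) ^ b) := (isUnit_one.neg).pow b
      rw [h2.dvd_mul_left] at h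
      have h3 : p ∣ (n + m).choose b := by exact_mod_cast h
      have h4 : p ∣ (n + m).factorial := by
        rw [← Nat.choose_mul_factorial_mul_factorial (show b ≤ n + m by omega), mul_assoc]
        exact Dvd.dvd.mul_right h3 _
      have := (hpp.dvd_factorial).1 h4
      omega
    · exact ⟨b, h1, (key b h1).1 h⟩
  · rintro ⟨b, hb, h⟩
    exact ⟨b, by omega, (key b hb).2 h⟩

lemma bound {p m : ℕ} [Fact p.Prime] (h4 : p % 4 = 1) (h : (p : ℤ) ∣ (MM m p).det) :
    p ≤ 2 * m + 1 + ∑ b ∈ range (m + 1), (BB m b + BB m (m - b)) := by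
  rcases Nat.lt_or_ge (2 * m + 1) p with h1 | h1
  · obtain ⟨b, hb, h2⟩ := (dvd_iff h4 h1).1 h
    have h3 := Nat.le_of_dvd (by have := BB_pos hb; omega) h2
    have h4 : BB m b + BB m (m - b) ≤ ∑ b ∈ range (m + 1), (BB m b + BB m (m - b)) :=
      single_le_sum (f := fun b => BB m b + BB m (m - b)) (fun i _ => Nat.zero_le _)
        (mem_range.2 (by omega))
    omega
  · omega

end Pool.Agent.Q23.LD
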