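import Pool.Agent.Q23.LD.Sq
import Pool.Agent.Helper848.SqDet

/-!
# Legendre symbols of the square roots of the determinants with entries `(j^2 - k^2)^m (j^2 - k^2 / p)`
-/

set_option autoImplicit false

namespace Pool.Agent.Q23.LD

open Finset Matrix Equiv

lemma MM_isSquare (m p : ℕ) [Fact p.Prime] (h4 : p % 4 = 1) (hm : Odd m) :
    IsSquare (MM m p).det := by
  apply Pool.Agent.Helper848.SqDet.isSquare_int (MM m p) 0
  intro i j
  have h1 : legendreSym p ((((j : ℕ) : ℤ) + 1) ^ 2 - (((i : ℕ) : ℤ) + 1) ^ 2) =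
      legendreSym p ((((i : ℕ) : ℤ) + 1) ^ 2 - (((j : ℕ) : ℤ) + 1) ^ 2) := by
    rw [show ((((j : ℕ) : ℤ) + 1) ^ 2 - (((i : ℕ) : ℤ) + 1) ^ 2) =
      -((((i : ℕ) : ℤ) + 1) ^ 2 - (((j : ℕ) : ℤ) + 1) ^ 2) by ring]
    rw [legendreSym.at_neg (by omega), ZMod.χ₄_nat_one_mod_four h4, one_mul]
  rw [MM, of_apply, of_apply, h1, show ((((j : ℕ) : ℤ) + 1) ^ 2 - (((i : ℕ) : ℤ) + 1) ^ 2) =
      -((((i : ℕ) : ℤ) + 1) ^ 2 - (((j : ℕ) : ℤ) + 1) ^ 2) by ring, hm.neg_pow]
  simp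

lemma sign_sg {h r : ℕ} (hr : 1 ≤ r) (hh : 0 < 2 * h) :
    (Perm.sign (sg (2 * h) (2 * r - 1) hh) : ℤ) = (-1) ^ h := by
  rw [Perm.sign_of_pow_two_eq_one (sg_sq _ _ _)]
  have h0 : Fintype.card (Function.fixedPoints (sg (2 * h) (2 * r - 1) hh)) = 0 := by
    rw [Fintype.card_eq_zero_iff]
    constructor
    rintro ⟨b, hb⟩
    rw [Function.mem_fixedPoints, Function.IsFixedPt] at hb
    have h1 : ((sg (2 * h) (2 * r - 1) hh b : Fin (2 * h)) : ℕ) = (b : ℕ) := by rw [hb]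
    rw [sg_val] at h1
    have h2 := Nat.div_add_mod (2 * h + (2 * r - 1) - (b : ℕ)) (2 * h)
    rw [h1] at h2
    have h3 := b.2
    have h4 : 2 * h * ((2 * h + (2 * r - 1) - (b : ℕ)) / (2 * h)) =
      2 * (h * ((2 * h + (2 * r - 1) - (b : ℕ)) / (2 * h))) := by ring
    omega
  rw [h0, Fintype.card_fin, Nat.sub_zero, Nat.mul_div_cancel_left _ (by norm_num)]
  push_cast
  rfl

/-- half of the product of the folded binomial coefficients -/
def RR (h r : ℕ) : ℤ :=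
  (∏ b ∈ range r, cc (2 * h) (2 * r - 1) b) *
    ∏ i ∈ range (h - r), cc (2 * h) (2 * r - 1) (2 * r + i)

lemma prod_cc {h r : ℕ} (hr : 1 ≤ r) (hrh : r ≤ h) :
    ∏ b ∈ range (2 * h), cc (2 * h) (2 * r - 1) b = (-1) ^ h * RR h r ^ 2 := by
  obtain ⟨l, rfl⟩ : ∃ l, h = r + l := ⟨h - r, by omega⟩
  have he : Even (2 * (r + l)) := even_two_mul _
  rw [show ∏ b ∈ range (2 * (r + l)), cc (2 * (r + l)) (2 * r - 1) b =
    ∏ b ∈ range (2 * r + 2 * l), cc (2 * (r + l)) (2 * r - 1) b by rw [mul_add], prod_range_add,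
    prod_fold _ r, prod_fold _ l]
  have h1 : ∀ b ∈ range r, cc (2 * (r + l)) (2 * r - 1) b *
      cc (2 * (r + l)) (2 * r - 1) (2 * r - 1 - b) =
      (-1) * cc (2 * (r + l)) (2 * r - 1) b ^ 2 := by
    intro b hb
    rw [mem_range] at hb
    rw [cc_small (by omega) he (show b ≤ 2 * r - 1 by omega),
      cc_small (by omega) he (show 2 * r - 1 - b ≤ 2 * r - 1 by omega),
      show 2 * r - 1 - (2 * r - 1 - b) = b by omega]
    have h2 : (-1 : ℤ) ^ b * (-1) ^ (2 * r - 1 - b) = -1 := by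
      rw [← pow_add, show b + (2 * r - 1 - b) = 2 * (r - 1) + 1 by omega, pow_succ, pow_mul]
      simp
    have h3 : ((-1 : ℤ) ^ b) ^ 2 = 1 := by rw [← pow_mul, mul_comm, pow_mul]; simp
    linear_combination (((2 * (r + l) + (2 * r - 1)).choose b : ℤ) +
      ((2 * (r + l) + (2 * r - 1)).choose (2 * r - 1 - b) : ℤ)) ^ 2 * (h2 + h3)
  have h2 : ∀ b ∈ range l, cc (2 * (r + l)) (2 * r - 1) (2 * r + b) *
      cc (2 * (r + l)) (2 * r - 1) (2 * r + (2 * l - 1 - b)) =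
      (-1) * cc (2 * (r + l)) (2 * r - 1) (2 * r + b) ^ 2 := by
    intro b hb
    rw [mem_range] at hb
    rw [cc_big (by omega) (show 2 * r + b < 2 * (r + l) by omega) (by omega),
      cc_big (by omega) (show 2 * r + (2 * l - 1 - b) < 2 * (r + l) by omega) (by omega)]
    have h3 : (2 * (r + l) + (2 * r - 1)).choose (2 * r + (2 * l - 1 - b)) =
        (2 * (r + l) + (2 * r - 1)).choose (2 * r + b) := by
      rw [← Nat.choose_symm (show 2 * r + b ≤ 2 * (r + l) + (2 * r - 1) by omega)]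
      congr 1
      omega
    rw [h3]
    have h4 : (-1 : ℤ) ^ (2 * r + b) * (-1) ^ (2 * r + (2 * l - 1 - b)) = -1 := by
      rw [← pow_add, show 2 * r + b + (2 * r + (2 * l - 1 - b)) = 2 * (2 * r + l - 1) + 1 by omega,
        pow_succ, pow_mul]
      simp
    have h5 : ((-1 : ℤ) ^ (2 * r + b)) ^ 2 = 1 := by rw [← pow_mul, mul_comm, pow_mul]; simp
    linear_combination ((2 * (r + l) + (2 * r - 1)).choose (2 * r + b) : ℤ) ^ 2 * (h4 + h5)
  rw [prod_congr rfl h1, prod_congr rfl h2, prod_mul_distrib, prod_mul_distrib, prod_const,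
    prod_const, card_range, card_range, prod_pow, prod_pow, RR, Nat.add_sub_cancel_left, pow_add]
  ring

section

variable {p : ℕ} [Fact p.Prime]

/-- the determinant modulo `p` as a square -/
lemma det_MM_sq {h r : ℕ} (hr : 1 ≤ r) (hrh : r ≤ h) (hp : p = 4 * h + 1) :
    ((MM (2 * r - 1) p).det : ZMod p) =
      ((vandermonde (xx p (2 * h))).det * (RR h r : ZMod p)) ^ 2 := by
  have hn : (p - 1) / 2 = 2 * h := by omega
  have key : ∀ n : ℕ, (hn : n = 2 * h) → ∀ hn0 : 0 < n, (vandermonde (xx p n)).det ^ 2 *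
      ((Perm.sign (sg n (2 * r - 1) hn0) : ℤ) *
        ∏ b : Fin n, (cc n (2 * r - 1) b : ℤ) : ℤ) =
      ((vandermonde (xx p (2 * h))).det * (RR h r : ZMod p)) ^ 2 := by
    rintro n rfl hn0
    have h1 := sign_sg (h := h) hr hn0
    have h2 : ∏ b : Fin (2 * h), (cc (2 * h) (2 * r - 1) b : ℤ) = (-1) ^ h * RR h r ^ 2 := by
      rw [← prod_cc hr hrh, prod_range]
    rw [h1, h2]
    have h3 : ((-1 : ℤ) ^ h * ((-1) ^ h * RR h r ^ 2) : ℤ) = RR h r ^ 2 := by
      rw [← mul_assoc, ← mul_pow]; simp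
    rw [h3]
    push_cast
    ring
  rw [det_MM (2 * r - 1) p (by omega) (by omega)]
  exact key _ hn (by omega)

/-- the Legendre symbol of the square root, general formula -/
lemma ch_sqrt {h r : ℕ} (hr : 1 ≤ r) (hrh : r ≤ h) (hp : p = 4 * h + 1) (s : ℤ)
    (hs : s ^ 2 = (MM (2 * r - 1) p).det) :
    legendreSym p s = (-1) ^ h * (∏ b ∈ range r, ch p ((cc (2 * h) (2 * r - 1) b : ℤ) : ZMod p)) *
      (ch p ((2 * h + (2 * r - 1)).factorial : ℕ) ^ (h - r) * ch p (h.factorial : ℕ) *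
        ∏ b ∈ range (2 * r), ch p (b.factorial : ℕ)) := by
  have h1 : ((s : ZMod p)) ^ 2 = ((vandermonde (xx p (2 * h))).det * (RR h r : ZMod p)) ^ 2 := by
    rw [← det_MM_sq hr hrh hp, ← hs]
    push_cast
    rfl
  have h2 : legendreSym p s = ch p ((vandermonde (xx p (2 * h))).det * (RR h r : ZMod p)) := by
    have h3 : legendreSym p s = ch p (s : ZMod p) := rfl
    rw [h3]
    rcases sq_eq_sq_iff_eq_or_eq_neg.1 h1 with h4 | h4
    · rw [h4]
    · rw [h4, ch_neg (by omega)]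
  rw [h2, ch_mul, ch_vand (by omega) hp]
  have h5 : (RR h r : ZMod p) = (∏ b ∈ range r, ((cc (2 * h) (2 * r - 1) b : ℤ) : ZMod p)) *
      ∏ i ∈ range (h - r), ((cc (2 * h) (2 * r - 1) (2 * r + i) : ℤ) : ZMod p) := by
    rw [RR]; push_cast; rfl
  rw [h5, ch_mul, ch_prod, ch_prod]
  have h6 : ∀ i ∈ range (h - r), ch p ((cc (2 * h) (2 * r - 1) (2 * r + i) : ℤ) : ZMod p) =
      ch p ((2 * h + (2 * r - 1)).factorial : ℕ) *
        (ch p ((2 * r + i).factorial : ℕ) * ch p ((2 * r + (2 * (h - r) - 1 - i)).factorial : ℕ)) := by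
    intro i hi
    rw [mem_range] at hi
    rw [cc_big (by omega) (by omega) (by omega)]
    push_cast
    rw [ch_mul, ch_pow, ch_neg_one (by omega), one_pow, one_mul,
      ch_choose (show 2 * h + (2 * r - 1) < p by omega) (show 2 * r + i ≤ _ by omega)]
    congr 5
    omega
  rw [prod_congr rfl h6, prod_mul_distrib, prod_const, card_range,
    ← prod_fold (fun i => ch p ((2 * r + i).factorial : ℕ)) (h - r)]
  have h7 := prod_range_add (fun b => ch p (b.factorial : ℕ)) (2 * r) (2 * (h - r))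
  rw [show 2 * r + 2 * (h - r) = 2 * h by omega, ch_superfac' (by omega) hp] at h7
  have h8 : (∏ b ∈ range (2 * r), ch p (b.factorial : ℕ)) *
      (∏ b ∈ range (2 * r), ch p (b.factorial : ℕ)) = 1 := by
    rw [← prod_mul_distrib]
    apply prod_eq_one
    intro b hb
    rw [mem_range] at hb
    exact ch_sq (fac_ne (by omega))
  rw [h7]
  linear_combination (-(-1) ^ h * (∏ b ∈ range r, ch p ((cc (2 * h) (2 * r - 1) b : ℤ) : ZMod p)) *
    ch p ((2 * h + (2 * r - 1)).factorial : ℕ) ^ (h - r) *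
    (∏ b ∈ range (2 * (h - r)), ch p ((2 * r + b).factorial : ℕ))) * h8

end

end Pool.Agent.Q23.LD
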