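import Pool.Agent.Q23.LD.Pf

/-!
# The square roots of the determinants for `m = 1` and `m = 3`
-/

set_option autoImplicit false

namespace Pool.Agent.Q23.LD

open Finset Matrix

section

variable {p : ℕ} [Fact p.Prime]

/-- the number of the quadratic nonresidues in `(0, p/4)` -/
def NN (p : ℕ) [Fact p.Prime] : ℕ :=
  ((range p).filter (fun k => 0 < k ∧ 4 * k < p ∧ legendreSym p (k : ℤ) = -1)).card

lemma ch_fac_count {h : ℕ} (hp : p = 4 * h + 1) : ch p (h.factorial : ℕ) = (-1) ^ NN p := by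
  rw [← prod_range_add_one_eq_factorial, Nat.cast_prod, ch_prod]
  have h1 : ∀ k ∈ range h, ch p ((k + 1 : ℕ) : ZMod p) =
      if legendreSym p ((k + 1 : ℕ) : ℤ) = -1 then -1 else 1 := by
    intro k hk
    rw [mem_range] at hk
    have h2 : legendreSym p ((k + 1 : ℕ) : ℤ) = ch p ((k + 1 : ℕ) : ZMod p) := by
      rw [legendreSym, ch, Int.cast_natCast]
    rw [h2]
    rcases ch_cases (p := p) (cast_ne_zero' (a := k + 1) (by omega) (by omega)) with h3 | h3
    · rw [h3, if_neg (by norm_num)]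
    · rw [h3, if_pos rfl]
  rw [prod_congr rfl h1, prod_ite, prod_const_one, mul_one, prod_const, NN]
  congr 1
  apply card_bij (fun k _ => k + 1)
  · intro k hk
    rw [mem_filter, mem_range] at hk
    rw [mem_filter, mem_range]
    exact ⟨by omega, by omega, by omega, hk.2⟩
  · intro a _ b _ hab
    omega
  · intro b hb
    rw [mem_filter, mem_range] at hb
    refine ⟨b - 1, ?_, by omega⟩
    rw [mem_filter, mem_range, show b - 1 + 1 = b by omega]
    exact ⟨by omega, hb.2.2.2⟩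

lemma ch_of_mul {a b c : ZMod p} (ha : a ≠ 0) (h : a * b = c) : ch p b = ch p a * ch p c := by
  rw [← h, ch_mul, ← mul_assoc, ch_sq ha, one_mul]

lemma nat_ne {a : ℕ} (h0 : 0 < a) (h : ¬ p ∣ a) : (a : ZMod p) ≠ 0 := by
  rwa [Ne, ZMod.natCast_eq_zero_iff]

lemma half_eq {h : ℕ} (hp : p = 4 * h + 1) : (4 : ZMod p) * (h : ZMod p) = -1 := by
  have : ((4 * h + 1 : ℕ) : ZMod p) = 0 := by rw [← hp, ZMod.natCast_self]
  push_cast at this
  linear_combination this

lemma two_ne {h : ℕ} (h0 : 0 < h) (hp : p = 4 * h + 1) : (2 : ZMod p) ≠ 0 := by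
  have := cast_ne_zero' (p := p) (a := 2) (by norm_num) (by omega)
  exact_mod_cast this

lemma ch_n1_fac {h : ℕ} (_h0 : 0 < h) (hp : p = 4 * h + 1) :
    ch p ((2 * h + 1).factorial : ℕ) = 1 := by
  have h1 : (((2 * h + 1).factorial : ℕ) : ZMod p) =
      ((2 * h + 1 : ℕ) : ZMod p) * (((2 * h).factorial : ℕ) : ZMod p) := by
    rw [Nat.factorial_succ, Nat.cast_mul]
  have h2 : ch p ((2 * h + 1 : ℕ) : ZMod p) = ch p 2 := by
    rw [ch_of_mul (two_ne _h0 hp) (c := 1), ch_one, mul_one]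
    have := half_eq hp
    push_cast
    linear_combination this
  rw [h1, ch_mul, h2, ch_half_fac hp, ch_two hp, ← mul_pow]
  simp

lemma pow_pm {u : ℤ} (hu : u * u = 1) {a b : ℕ} (hab : a % 2 = b % 2) : u ^ a = u ^ b := by
  rw [pow_eq_pow_mod (n := 2) a (by rw [sq]; exact hu), pow_eq_pow_mod (n := 2) b (by rw [sq]; exact hu), hab]

/-- `m = 1` -/
theorem sqrt_one {h : ℕ} (h0 : 0 < h) (hp : p = 4 * h + 1) (s : ℤ) (hs : s ^ 2 = (MM 1 p).det) :
    legendreSym p s = (-1) ^ NN p * ch p 3 := by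
  have h1 := ch_sqrt (r := 1) (le_refl 1) (show 1 ≤ h by omega) hp s hs
  rw [h1, show 2 * h + (2 * 1 - 1) = 2 * h + 1 by omega, ch_n1_fac h0 hp, ← ch_fac_count hp]
  have h2 : cc (2 * h) (2 * 1 - 1) 0 = ((2 * h + 2 : ℕ) : ℤ) := by
    rw [show 2 * 1 - 1 = 1 by norm_num, cc_small (by omega) (even_two_mul _) (by omega)]
    simp
    ring
  have h3 : ch p (((2 * h + 2 : ℕ) : ℤ) : ZMod p) = ch p 2 * ch p 3 := by
    apply ch_of_mul (two_ne h0 hp)
    have := half_eq hp
    push_cast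
    linear_combination this
  have h4 : ch p 2 * ch p 2 = 1 := ch_sq (two_ne h0 hp)
  rw [prod_range_one, h2, h3, ← ch_two hp]
  simp [prod_range_succ, ch_one]
  linear_combination (ch p 3 * ch p (h.factorial : ℕ)) * h4

/-- `m = 3` -/
theorem sqrt_three {h : ℕ} (h0 : 2 ≤ h) (hp : p = 4 * h + 1) (s : ℤ)
    (hs : s ^ 2 = (MM 3 p).det) :
    legendreSym p s = (-1) ^ NN p * (if h % 2 = 0 then ch p 5 else ch p 3) := by
  have h1 := ch_sqrt (r := 2) (by norm_num) h0 hp s hs
  have hpp := (Fact.out : p.Prime)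
  have n2 : ch p 2 * ch p 2 = 1 := ch_sq (two_ne (by omega) hp)
  have n3' : (3 : ZMod p) ≠ 0 := by
    have := cast_ne_zero' (p := p) (a := 3) (by norm_num) (by omega)
    exact_mod_cast this
  have n3 : ch p 3 * ch p 3 = 1 := ch_sq n3'
  have n5' : (5 : ZMod p) ≠ 0 := by
    have := cast_ne_zero' (p := p) (a := 5) (by norm_num) (by omega)
    exact_mod_cast this
  have n5 : ch p 5 * ch p 5 = 1 := ch_sq n5'
  have n7' : (7 : ZMod p) ≠ 0 := by
    have := cast_ne_zero' (p := p) (a := 7) (by norm_num) (by omega)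
    exact_mod_cast this
  have n7 : ch p 7 * ch p 7 = 1 := ch_sq n7'
  have n6 : (6 : ZMod p) ≠ 0 := by
    have := mul_ne_zero (two_ne (by omega) hp) n3'
    rwa [show (2 : ZMod p) * 3 = 6 by norm_num] at this
  have hh := half_eq hp
  -- the coefficients
  have c0 : cc (2 * h) (2 * 2 - 1) 0 = (((2 * h + 3).choose 0 + (2 * h + 3).choose 3 : ℕ) : ℤ) := by
    rw [show 2 * 2 - 1 = 3 by norm_num, cc_small (by omega) (even_two_mul _) (by omega)]
    push_cast
    simp
  have c1 : cc (2 * h) (2 * 2 - 1) 1 =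
      -(((2 * h + 3).choose 1 + (2 * h + 3).choose 2 : ℕ) : ℤ) := by
    rw [show 2 * 2 - 1 = 3 by norm_num, cc_small (by omega) (even_two_mul _) (by omega)]
    push_cast
    ring
  have e3 : 6 * (2 * h + 3).choose 3 = (2 * h + 3) * (2 * h + 2) * (2 * h + 1) := by
    have := Nat.descFactorial_eq_factorial_mul_choose (2 * h + 3) 3
    rw [show Nat.factorial 3 = 6 by rfl] at this
    rw [← this]
    simp [Nat.descFactorial_succ]
    ring
  have e2 : 2 * (2 * h + 3).choose 2 = (2 * h + 3) * (2 * h + 2) := by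
    have := Nat.descFactorial_eq_factorial_mul_choose (2 * h + 3) 2
    rw [show Nat.factorial 2 = 2 by rfl] at this
    rw [← this]
    simp [Nat.descFactorial_succ]
    ring
  have e3' := congrArg (fun x : ℕ => (x : ZMod p)) e3
  have e2' := congrArg (fun x : ℕ => (x : ZMod p)) e2
  push_cast at e3' e2'
  have k0 : ch p ((cc (2 * h) (2 * 2 - 1) 0 : ℤ) : ZMod p) = ch p 3 * ch p 7 := by
    rw [c0]
    have e : (48 : ZMod p) * (((((2 * h + 3).choose 0 + (2 * h + 3).choose 3 : ℕ) : ℤ)) : ZMod p) =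
        63 := by
      push_cast
      rw [Nat.choose_zero_right]
      push_cast
      linear_combination (8 : ZMod p) * e3' +
        (16 * (h : ZMod p) ^ 2 + 44 * h + 33) * hh
    have n48 : (48 : ZMod p) ≠ 0 := by
      have h2 := two_ne (p := p) (by omega) hp
      have : (48 : ZMod p) = 2 * 2 * 2 * 6 := by norm_num
      rw [this]
      exact mul_ne_zero (mul_ne_zero (mul_ne_zero h2 h2) h2) n6
    rw [ch_of_mul n48 e, show (48 : ZMod p) = 2 * 2 * (2 * 2) * 3 by norm_num,
      show (63 : ZMod p) = 3 * 3 * 7 by norm_num]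
    simp only [ch_mul]
    rw [n2, n3]
    ring
  have k1 : ch p ((cc (2 * h) (2 * 2 - 1) 1 : ℤ) : ZMod p) = ch p 2 * ch p 5 * ch p 7 := by
    rw [c1]
    have e : (8 : ZMod p) * (((((2 * h + 3).choose 1 + (2 * h + 3).choose 2 : ℕ) : ℤ)) : ZMod p) =
        35 := by
      push_cast
      rw [Nat.choose_one_right]
      push_cast
      linear_combination (4 : ZMod p) * e2' + (4 * (h : ZMod p) + 13) * hh
    have n8 : (8 : ZMod p) ≠ 0 := by
      have h2 := two_ne (p := p) (by omega) hp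
      have : (8 : ZMod p) = 2 * 2 * 2 := by norm_num
      rw [this]
      exact mul_ne_zero (mul_ne_zero h2 h2) h2
    rw [Int.cast_neg, ch_neg (by omega), ch_of_mul n8 e, show (8 : ZMod p) = 2 * 2 * 2 by norm_num,
      show (35 : ZMod p) = 5 * 7 by norm_num]
    simp only [ch_mul]
    rw [n2]
    ring
  have k2 : ch p ((2 * h + (2 * 2 - 1)).factorial : ℕ) = ch p 3 * ch p 5 := by
    rw [show 2 * h + (2 * 2 - 1) = 2 * h + 1 + 1 + 1 by omega, Nat.factorial_succ,
      Nat.factorial_succ (2 * h + 1), Nat.cast_mul, Nat.cast_mul, ch_mul, ch_mul,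
      ch_n1_fac (by omega) hp, mul_one]
    have q1 : ch p ((2 * h + 1 + 1 : ℕ) : ZMod p) = ch p 2 * ch p 3 := by
      apply ch_of_mul (two_ne (by omega) hp)
      push_cast
      linear_combination hh
    have q2 : ch p ((2 * h + 1 + 1 + 1 : ℕ) : ZMod p) = ch p 2 * ch p 5 := by
      apply ch_of_mul (two_ne (by omega) hp)
      push_cast
      linear_combination hh
    rw [q1, q2]
    linear_combination (ch p 3 * ch p 5) * n2
  have k3 : ∏ b ∈ range (2 * 2), ch p (b.factorial : ℕ) = ch p 3 := by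
    have f2 : ((Nat.factorial 2 : ℕ) : ZMod p) = 2 := by rw [show Nat.factorial 2 = 2 by rfl]; rfl
    have f3 : ((Nat.factorial 3 : ℕ) : ZMod p) = 2 * 3 := by
      rw [show Nat.factorial 3 = 6 by rfl]; push_cast; norm_num
    rw [show 2 * 2 = 4 by norm_num, prod_range_succ, prod_range_succ, prod_range_succ,
      prod_range_one, f2, f3, ch_mul]
    simp only [Nat.factorial_zero, Nat.factorial_one, Nat.cast_one, ch_one, one_mul]
    linear_combination (ch p 3) * n2
  rw [h1, ← ch_fac_count hp, prod_range_succ, prod_range_one, k0, k1, k2, k3, ← ch_two hp]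
  have hu : (ch p 3 * ch p 5) * (ch p 3 * ch p 5) = 1 := by
    linear_combination (ch p 5 * ch p 5) * n3 + n5
  split_ifs with he
  · rw [pow_pm hu (show (h - 2) % 2 = 0 % 2 by omega), pow_zero]
    linear_combination (ch p 7 * ch p 7 * ch p 3 * ch p 3 * ch p 5 * ch p (h.factorial : ℕ)) * n2 +
      (ch p 3 * ch p 3 * ch p 5 * ch p (h.factorial : ℕ)) * n7 +
      (ch p 5 * ch p (h.factorial : ℕ)) * n3
  · rw [pow_pm hu (show (h - 2) % 2 = 1 % 2 by omega), pow_one]
    linear_combination (ch p 7 * ch p 7 * ch p 3 * ch p 3 * ch p 3 * ch p 5 * ch p 5 *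
      ch p (h.factorial : ℕ)) * n2 +
      (ch p 3 * ch p 3 * ch p 3 * ch p 5 * ch p 5 * ch p (h.factorial : ℕ)) * n7 +
      (ch p 3 * ch p 5 * ch p 5 * ch p (h.factorial : ℕ)) * n3 +
      (ch p 3 * ch p (h.factorial : ℕ)) * n5

end

end Pool.Agent.Q23.LD
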