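import Pool.Agent.Q23.LD.Fin

/-!
# Quadratic characters of factorials and of the Vandermonde determinant of the squares
-/

set_option autoImplicit false

namespace Pool.Agent.Q23.LD

open Finset Matrix

/-- the quadratic character -/
noncomputable def ch (p : ℕ) [Fact p.Prime] (a : ZMod p) : ℤ := quadraticChar (ZMod p) a

section

variable {p : ℕ} [Fact p.Prime]

lemma ch_mul (a b : ZMod p) : ch p (a * b) = ch p a * ch p b := map_mul _ a b

lemma ch_one : ch p 1 = 1 := map_one _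

lemma ch_pow (a : ZMod p) (n : ℕ) : ch p (a ^ n) = ch p a ^ n := map_pow _ a n

lemma ch_prod {ι : Type*} (s : Finset ι) (f : ι → ZMod p) :
    ch p (∏ i ∈ s, f i) = ∏ i ∈ s, ch p (f i) := map_prod _ f s

lemma ch_sq {a : ZMod p} (ha : a ≠ 0) : ch p a * ch p a = 1 := by
  have := quadraticChar_sq_one (F := ZMod p) ha
  rw [ch, ← sq]
  exact this

lemma ch_cases {a : ZMod p} (ha : a ≠ 0) : ch p a = 1 ∨ ch p a = -1 :=
  quadraticChar_dichotomy ha

lemma ch_neg_one (h4 : p % 4 = 1) : ch p (-1) = 1 := by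
  rw [ch, quadraticChar_neg_one (by rw [ZMod.ringChar_zmod_n]; omega), ZMod.card]
  exact ZMod.χ₄_nat_one_mod_four h4

lemma ch_neg (h4 : p % 4 = 1) (a : ZMod p) : ch p (-a) = ch p a := by
  rw [← neg_one_mul, ch_mul, ch_neg_one h4, one_mul]

lemma ch_two {h : ℕ} (hp : p = 4 * h + 1) : ch p 2 = (-1) ^ h := by
  rw [ch, quadraticChar_two (by rw [ZMod.ringChar_zmod_n]; omega), ZMod.card,
    ZMod.χ₈_nat_eq_if_mod_eight, if_neg (by omega)]
  rcases Nat.even_or_odd h with he | ho
  · rw [he.neg_one_pow, if_pos]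
    obtain ⟨k, rfl⟩ := he
    left; omega
  · rw [ho.neg_one_pow, if_neg]
    obtain ⟨k, rfl⟩ := ho
    omega

/-- Euler's criterion -/
lemma ch_eq_pow (hp : p ≠ 2) (a : ZMod p) : (ch p a : ZMod p) = a ^ (p / 2) := by
  have := quadraticChar_eq_pow_of_char_ne_two' (F := ZMod p)
    (by rw [ZMod.ringChar_zmod_n]; exact hp) a
  rw [ZMod.card] at this
  exact this

lemma one_ne_neg_one (hp : p ≠ 2) : (1 : ZMod p) ≠ -1 := by
  intro h
  have h1 : ((2 : ℕ) : ZMod p) = 0 := by
    push_cast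
    linear_combination h
  rw [ZMod.natCast_eq_zero_iff] at h1
  exact hp ((Nat.prime_dvd_prime_iff_eq (Fact.out : p.Prime) Nat.prime_two).1 h1)

lemma pm_inj (hp : p ≠ 2) {u v : ℤ} (hu : u = 1 ∨ u = -1) (hv : v = 1 ∨ v = -1)
    (h : (u : ZMod p) = (v : ZMod p)) : u = v := by
  have h1 := one_ne_neg_one hp
  rcases hu with rfl | rfl <;> rcases hv with rfl | rfl
  · rfl
  · push_cast at h; exact absurd h h1
  · push_cast at h; exact absurd h.symm h1
  · rfl

lemma fac_ne {k : ℕ} (hk : k < p) : ((k.factorial : ℕ) : ZMod p) ≠ 0 := by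
  rw [Ne, ZMod.natCast_eq_zero_iff, (Fact.out : p.Prime).dvd_factorial]
  omega

/-- a form of Wilson's theorem -/
lemma wil (k : ℕ) (hk : k + 1 ≤ p) :
    ((k.factorial : ℕ) : ZMod p) * (((p - 1 - k).factorial : ℕ) : ZMod p) = (-1) ^ (k + 1) := by
  induction k with
  | zero => simp [ZMod.wilsons_lemma]
  | succ k ih =>
    have h1 := ih (by omega)
    obtain ⟨l, hl⟩ : ∃ l, p = l + k + 2 := ⟨p - k - 2, by omega⟩
    have e1 : p - 1 - k = l + 1 := by omega
    have e2 : p - 1 - (k + 1) = l := by omega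
    rw [e1] at h1
    rw [e2]
    have h2 : ((l + 1 : ℕ) : ZMod p) = -((k + 1 : ℕ) : ZMod p) := by
      have h3 : ((l + 1 + (k + 1) : ℕ) : ZMod p) = 0 := by
        rw [show l + 1 + (k + 1) = p by omega, ZMod.natCast_self]
      rw [Nat.cast_add] at h3
      linear_combination h3
    have h4 : ((k + 1 : ℕ) : ZMod p) ≠ 0 := cast_ne_zero' (by omega) (by omega)
    rw [Nat.factorial_succ, Nat.cast_mul] at h1 ⊢
    rw [h2] at h1
    rw [pow_succ, ← h1]
    ring

lemma ch_fac_mul (h4 : p % 4 = 1) (k l : ℕ) (hk : k + l + 1 = p) :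
    ch p (k.factorial : ℕ) * ch p (l.factorial : ℕ) = 1 := by
  have h1 := wil (p := p) k (by omega)
  rw [show p - 1 - k = l by omega] at h1
  rw [← ch_mul, h1, ch_pow, ch_neg_one h4, one_pow]

lemma ch_half_fac {h : ℕ} (hp : p = 4 * h + 1) : ch p ((2 * h).factorial : ℕ) = (-1) ^ h := by
  have h1 := wil (p := p) (2 * h) (by omega)
  rw [show p - 1 - 2 * h = 2 * h by omega] at h1
  have h2 : (((2 * h).factorial : ℕ) : ZMod p) ^ 2 = -1 := by
    rw [sq, h1, pow_succ, pow_mul]; simp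
  apply pm_inj (p := p) (by omega) (ch_cases (fac_ne (by omega))) (neg_one_pow_eq_or ℤ h)
  rw [ch_eq_pow (by omega), show p / 2 = 2 * h by omega, pow_mul, h2]
  push_cast
  rfl

/-- products with a reflection -/
lemma prod_fold {M : Type*} [CommMonoid M] (f : ℕ → M) (k : ℕ) :
    ∏ b ∈ range (2 * k), f b = ∏ b ∈ range k, (f b * f (2 * k - 1 - b)) := by
  rw [two_mul, prod_range_add, prod_mul_distrib]
  congr 1
  rw [← prod_range_reflect]
  apply prod_congr rfl
  intro b hb
  rw [mem_range] at hb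
  congr 1
  omega

/-- the character of the product of the factorials -/
lemma ch_superfac (h : ℕ) (hh : 2 * h + 1 < p) :
    ∏ b ∈ range (2 * h + 2), ch p (b.factorial : ℕ) =
      ch p ((2 * h + 1).factorial : ℕ) * (ch p 2 ^ h * ch p (h.factorial : ℕ)) := by
  induction h with
  | zero => simp [prod_range_succ, ch_one]
  | succ h ih =>
    have h1 := ih (by omega)
    rw [show 2 * (h + 1) + 2 = (2 * h + 2) + 1 + 1 by ring, prod_range_succ, prod_range_succ, h1]
    have h2 : (((2 * h + 2).factorial : ℕ) : ZMod p) =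
        2 * ((h + 1 : ℕ) : ZMod p) * (((2 * h + 1).factorial : ℕ) : ZMod p) := by
      rw [show 2 * h + 2 = (2 * h + 1) + 1 by ring, Nat.factorial_succ, Nat.cast_mul]
      push_cast
      ring
    have h3 : (((h + 1).factorial : ℕ) : ZMod p) = ((h + 1 : ℕ) : ZMod p) * ((h.factorial : ℕ) : ZMod p) := by
      rw [Nat.factorial_succ, Nat.cast_mul]
    have h4 := ch_sq (p := p) (fac_ne (k := 2 * h + 1) (by omega))
    rw [h2, h3, ch_mul, ch_mul, ch_mul, show 2 * (h + 1) + 1 = 2 * h + 2 + 1 by ring, pow_succ]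
    linear_combination (ch p 2 ^ h * ch p (h.factorial : ℕ) * ch p 2 * ch p ((h + 1 : ℕ) : ZMod p) *
      ch p ((2 * h + 2 + 1).factorial : ℕ)) * h4

/-- the product of the characters of the factorials below `(p-1)/2` -/
lemma ch_superfac' {h : ℕ} (h0 : 0 < h) (hp : p = 4 * h + 1) :
    ∏ b ∈ range (2 * h), ch p (b.factorial : ℕ) = ch p (h.factorial : ℕ) := by
  obtain ⟨g, rfl⟩ : ∃ g, h = g + 1 := ⟨h - 1, by omega⟩
  rw [show 2 * (g + 1) = 2 * g + 2 by ring, ch_superfac g (by omega)]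
  have h1 : (((2 * (g + 1)).factorial : ℕ) : ZMod p) =
      2 * ((g + 1 : ℕ) : ZMod p) * (((2 * g + 1).factorial : ℕ) : ZMod p) := by
    rw [show 2 * (g + 1) = (2 * g + 1) + 1 by ring, Nat.factorial_succ, Nat.cast_mul]
    push_cast
    ring
  have h2 := ch_half_fac (p := p) hp
  rw [h1, ch_mul, ch_mul] at h2
  have h3 : ch p ((g + 1 : ℕ) : ZMod p) = 1 := by
    have e : (2 : ZMod p) * 2 * ((g + 1 : ℕ) : ZMod p) = -1 := by
      have : ((4 * (g + 1) + 1 : ℕ) : ZMod p) = 0 := by rw [← hp, ZMod.natCast_self]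
      push_cast at this ⊢
      linear_combination this
    have e2 := congrArg (ch p) e
    have hne : (2 : ZMod p) ≠ 0 := by
      have := cast_ne_zero' (p := p) (a := 2) (by norm_num) (by omega)
      exact_mod_cast this
    rw [ch_mul, ch_mul, ch_neg_one (by omega), ch_sq hne, one_mul] at e2
    exact e2
  have h5 : ch p 2 = (-1) ^ (g + 1) := ch_two hp
  have h6 : ch p 2 * ch p 2 = 1 := ch_sq (by
      have := cast_ne_zero' (p := p) (a := 2) (by norm_num) (by omega)
      exact_mod_cast this)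
  have h7 : ch p ((2 * g + 1).factorial : ℕ) = 1 := by
    rw [h3, mul_one, h5] at h2
    have h8 : ((-1 : ℤ) ^ (g + 1)) * ((-1) ^ (g + 1)) = 1 := by rw [← mul_pow]; simp
    calc ch p ((2 * g + 1).factorial : ℕ)
        = (((-1 : ℤ) ^ (g + 1)) * ((-1) ^ (g + 1))) * ch p ((2 * g + 1).factorial : ℕ) := by
          rw [h8, one_mul]
      _ = ((-1 : ℤ) ^ (g + 1)) * (((-1) ^ (g + 1)) * ch p ((2 * g + 1).factorial : ℕ)) := by ring
      _ = ((-1 : ℤ) ^ (g + 1)) * ((-1) ^ (g + 1)) := by rw [h2]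
      _ = 1 := h8
  have h9 : ch p (((g + 1).factorial : ℕ) : ZMod p) = ch p (g.factorial : ℕ) := by
    rw [Nat.factorial_succ, Nat.cast_mul, ch_mul, h3, one_mul]
  have h10 : ch p 2 ^ g = 1 := by
    rw [h5, ← pow_mul]
    exact (Nat.even_mul_pred_self (g + 1)).neg_one_pow
  rw [h7, h9, h10]
  ring

/-- the Vandermonde determinant of the squares as a product of factorials -/
lemma vand_fac (n : ℕ) :
    ((n.factorial : ℕ) : ZMod p) * (vandermonde (xx p n)).det =
      ∏ j ∈ range n, (((2 * j + 1).factorial : ℕ) : ZMod p) := by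
  rw [det_vandermonde]
  have h1 : ∏ i : Fin n, ∏ j ∈ Ioi i, (xx p n j - xx p n i) =
      ∏ j : Fin n, ∏ i ∈ Iio j, (xx p n j - xx p n i) := by
    apply prod_comm'
    intro x y
    simp
  rw [h1]
  have h2 : ∀ j : Fin n, ∏ i ∈ Iio j, (xx p n j - xx p n i) =
      ∏ i ∈ range (j : ℕ), ((((j : ℕ) + 1 : ℕ) : ZMod p) ^ 2 - ((i + 1 : ℕ) : ZMod p) ^ 2) := by
    intro j
    have h3 : range (j : ℕ) = (Iio j).map Fin.valEmbedding := by
      rw [Fin.map_valEmbedding_Iio]
      ext x; simp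
    rw [h3, prod_map]
    apply prod_congr rfl
    intro i _
    simp [xx]
  have h4 : ∏ j : Fin n, ∏ i ∈ Iio j, (xx p n j - xx p n i) =
      ∏ j ∈ range n, ∏ i ∈ range j, (((j + 1 : ℕ) : ZMod p) ^ 2 - ((i + 1 : ℕ) : ZMod p) ^ 2) := by
    rw [prod_range]
    exact prod_congr rfl fun j _ => h2 j
  rw [h4, ← prod_range_add_one_eq_factorial, Nat.cast_prod, ← prod_mul_distrib]
  apply prod_congr rfl
  intro j _
  have h5 : ∀ i ∈ range j, (((j + 1 : ℕ) : ZMod p) ^ 2 - ((i + 1 : ℕ) : ZMod p) ^ 2) =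
      (((j - i) * (j + 2 + i) : ℕ) : ZMod p) := by
    intro i hi
    rw [mem_range] at hi
    obtain ⟨k, rfl⟩ : ∃ k, j = i + k := ⟨j - i, by omega⟩
    rw [Nat.add_sub_cancel_left]
    push_cast
    ring
  rw [prod_congr rfl h5, ← Nat.cast_prod, ← Nat.cast_mul]
  congr 1
  rw [prod_mul_distrib, ← Nat.ascFactorial_eq_prod_range]
  have h6 : ∏ i ∈ range j, (j - i) = j.factorial := by
    rw [← Nat.descFactorial_eq_prod_range, Nat.descFactorial_self]
  have h7 := Nat.factorial_mul_ascFactorial (j + 1) j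
  rw [h6, ← mul_assoc, ← Nat.factorial_succ]
  rw [show j + 2 = j + 1 + 1 by ring, h7]
  congr 1
  ring

/-- the character of the Vandermonde determinant of the squares -/
lemma ch_vand {h : ℕ} (h0 : 0 < h) (hp : p = 4 * h + 1) :
    ch p (vandermonde (xx p (2 * h))).det = (-1) ^ h := by
  have h1 := congrArg (ch p) (vand_fac (p := p) (2 * h))
  rw [ch_mul, ch_half_fac hp, ch_prod] at h1
  have h2 : ∏ j ∈ range (2 * h), ch p (((2 * j + 1).factorial : ℕ) : ZMod p) = 1 := by
    rw [prod_fold (fun j => ch p (((2 * j + 1).factorial : ℕ) : ZMod p)) h]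
    apply prod_eq_one
    intro j hj
    rw [mem_range] at hj
    exact ch_fac_mul (by omega) _ _ (by omega)
  rw [h2] at h1
  have h8 : ((-1 : ℤ) ^ h) * ((-1) ^ h) = 1 := by rw [← mul_pow]; simp
  calc ch p (vandermonde (xx p (2 * h))).det
      = (((-1 : ℤ) ^ h) * ((-1) ^ h)) * ch p (vandermonde (xx p (2 * h))).det := by
        rw [h8, one_mul]
    _ = ((-1 : ℤ) ^ h) * (((-1) ^ h) * ch p (vandermonde (xx p (2 * h))).det) := by ring
    _ = (-1) ^ h := by rw [h1, mul_one]

/-- the character of a binomial coefficient -/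
lemma ch_choose {N b : ℕ} (hN : N < p) (hb : b ≤ N) :
    ch p (N.choose b : ℕ) = ch p (N.factorial : ℕ) * (ch p (b.factorial : ℕ) * ch p ((N - b).factorial : ℕ)) := by
  have h1 := Nat.choose_mul_factorial_mul_factorial hb
  have h2 := congrArg (fun x : ℕ => ch p (x : ZMod p)) h1
  simp only [Nat.cast_mul, ch_mul] at h2
  have h3 := ch_sq (p := p) (fac_ne (k := b) (by omega))
  have h4 := ch_sq (p := p) (fac_ne (k := N - b) (by omega))
  rw [← h2]
  linear_combination (-ch p (N.choose b : ℕ)) * h3 -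
    (ch p (N.choose b : ℕ) * ch p (b.factorial : ℕ) * ch p (b.factorial : ℕ)) * h4

end

end Pool.Agent.Q23.LD
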