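import Pool.Agent.Q23.LD.Sq

/-!
# Determinants with entries `(j + k / p) + (j - k / p) + δ₁ (j^2 + δ₂ k^2 / p)`
-/

set_option autoImplicit false

namespace Pool.Agent.Q23.LD

open Finset Matrix Equiv

/-- the coefficient matrix -/
def CM (h : ℕ) (d1 d2 : ℤ) : Matrix (Fin (2 * h + 1)) (Fin (2 * h + 1)) ℤ :=
  Matrix.of fun a b => (if (a : ℕ) + b = h then 2 * ((2 * h).choose (2 * b) : ℤ) else 0) +
    (if (a : ℕ) + b = 2 * h then d1 * (d2 ^ (b : ℕ) * ((2 * h).choose b : ℤ)) else 0)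

lemma CM_det (h : ℕ) (h0 : 0 < h) (d1 d2 : ℤ) :
    ((Perm.sign (Fin.revPerm (n := 2 * h + 1)) : ℤˣ) : ℤ) * (CM h d1 d2).det =
      ∏ b ∈ range (2 * h + 1), (d1 * (d2 ^ b * ((2 * h).choose b : ℤ))) := by
  have h1 : ((CM h d1 d2).submatrix (Fin.revPerm (n := 2 * h + 1)) id).det =
      ∏ b : Fin (2 * h + 1), (d1 * (d2 ^ (b : ℕ) * ((2 * h).choose b : ℤ))) := by
    rw [det_of_isLowerTriangular]
    · apply prod_congr rfl
      intro b _
      rw [submatrix_apply, CM, of_apply, Fin.revPerm_apply, Fin.val_rev, id]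
      have := b.2
      rw [if_neg (by omega), if_pos (by omega), zero_add]
    · intro a b hab
      have hab' : (a : ℕ) < b := hab
      rw [submatrix_apply, CM, of_apply, Fin.revPerm_apply, Fin.val_rev, id]
      have := b.2
      rw [if_neg (by omega), if_neg (by omega), zero_add]
  rw [det_permute] at h1
  rw [prod_range, ← h1]
  simp

lemma expand_sum {R : Type*} [CommRing R] (h : ℕ) (x y : R) :
    (x + y) ^ (2 * h) + (x - y) ^ (2 * h) =
      ∑ s ∈ range (h + 1), 2 * ((2 * h).choose (2 * s) : R) * (x ^ 2) ^ (h - s) * (y ^ 2) ^ s := by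
  have key : ∀ z : R, (x + z) ^ (2 * h) = ∑ s ∈ range (h + 1),
      ((2 * h).choose (2 * s) : R) * (x ^ 2) ^ (h - s) * (z ^ 2) ^ s +
      ∑ s ∈ range h, z * (((2 * h).choose (2 * s + 1) : R) * x ^ (2 * h - (2 * s + 1)) *
        (z ^ 2) ^ s) := by
    intro z
    rw [add_comm x z, add_pow]
    have e : ∀ (f : ℕ → R) (m : ℕ), ∑ i ∈ range (2 * m + 1), f i =
        ∑ s ∈ range (m + 1), f (2 * s) + ∑ s ∈ range m, f (2 * s + 1) := by
      intro f m
      induction m with
      | zero => simp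
      | succ m ih =>
        rw [show 2 * (m + 1) + 1 = (2 * m + 1) + 1 + 1 by ring, sum_range_succ, sum_range_succ, ih,
          sum_range_succ (fun s => f (2 * s)) (m + 1), sum_range_succ (fun s => f (2 * s + 1)) m]
        rw [show 2 * (m + 1) = 2 * m + 1 + 1 by ring]
        ring
    rw [e]
    congr 1
    · apply sum_congr rfl
      intro s hs
      rw [mem_range] at hs
      rw [← pow_mul, ← pow_mul, show 2 * (h - s) = 2 * h - 2 * s by omega]
      ring
    · apply sum_congr rfl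
      intro s hs
      rw [pow_succ, pow_mul]
      ring
  rw [key y, sub_eq_add_neg, key (-y), neg_sq]
  have e2 : ∑ s ∈ range h, (-y) * (((2 * h).choose (2 * s + 1) : R) *
      x ^ (2 * h - (2 * s + 1)) * (y ^ 2) ^ s) = -∑ s ∈ range h, y * (((2 * h).choose (2 * s + 1) : R) *
      x ^ (2 * h - (2 * s + 1)) * (y ^ 2) ^ s) := by
    rw [← sum_neg_distrib]
    apply sum_congr rfl
    intro s _
    ring
  rw [e2]
  have e3 : ∑ s ∈ range (h + 1), 2 * ((2 * h).choose (2 * s) : R) * (x ^ 2) ^ (h - s) * (y ^ 2) ^ s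
      = ∑ s ∈ range (h + 1), ((2 * h).choose (2 * s) : R) * (x ^ 2) ^ (h - s) * (y ^ 2) ^ s +
        ∑ s ∈ range (h + 1), ((2 * h).choose (2 * s) : R) * (x ^ 2) ^ (h - s) * (y ^ 2) ^ s := by
    rw [← sum_add_distrib]
    apply sum_congr rfl
    intro s _
    ring
  rw [e3]
  ring

/-- the entries as bilinear forms in powers -/
lemma entry_expand {R : Type*} [CommRing R] (h : ℕ) (d1 d2 : ℤ) (x y : R) :
    (x + y) ^ (2 * h) + (x - y) ^ (2 * h) + (d1 : R) * (x ^ 2 + (d2 : R) * y ^ 2) ^ (2 * h) =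
      ∑ a : Fin (2 * h + 1), ∑ b : Fin (2 * h + 1),
        (x ^ 2) ^ (a : ℕ) * (CM h d1 d2 a b : R) * (y ^ 2) ^ (b : ℕ) := by
  have e1 : ∀ a b : Fin (2 * h + 1), (x ^ 2) ^ (a : ℕ) * (CM h d1 d2 a b : R) * (y ^ 2) ^ (b : ℕ) =
      (if (a : ℕ) + b = h then 2 * ((2 * h).choose (2 * b) : R) * (x ^ 2) ^ (h - b) * (y ^ 2) ^ (b : ℕ)
        else 0) +
      (if (a : ℕ) + b = 2 * h then (d1 : R) * ((x ^ 2) ^ (2 * h - b) * ((d2 : R) * y ^ 2) ^ (b : ℕ) *
        ((2 * h).choose b : R)) else 0) := by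
    intro a b
    rw [CM, of_apply, Int.cast_add, mul_add, add_mul]
    congr 1
    · split_ifs with hab
      · rw [show h - (b : ℕ) = a by omega]
        push_cast
        ring
      · simp
    · split_ifs with hab
      · rw [show 2 * h - (b : ℕ) = a by omega, mul_pow]
        push_cast
        ring
      · simp
  simp_rw [e1, sum_add_distrib]
  have e2 : ∀ (m : ℕ) (g : ℕ → R), m ≤ 2 * h → ∑ a : Fin (2 * h + 1), ∑ b : Fin (2 * h + 1),
      (if (a : ℕ) + b = m then g b else 0) = ∑ s ∈ range (m + 1), g s := by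
    intro m g hm
    rw [sum_comm]
    have e3 : ∀ b : Fin (2 * h + 1), ∑ a : Fin (2 * h + 1), (if (a : ℕ) + b = m then g b else 0) =
        if (b : ℕ) ≤ m then g b else 0 := by
      intro b
      split_ifs with hb
      · rw [sum_eq_single (⟨m - b, by omega⟩ : Fin (2 * h + 1))]
        · rw [if_pos]; simp; omega
        · intro a _ ha
          rw [if_neg]
          intro h1
          exact ha (Fin.ext (by simp; omega))
        · intro h1; exact absurd (mem_univ _) h1
      · apply sum_eq_zero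
        intro a _
        rw [if_neg]
        omega
    rw [sum_congr rfl (fun b _ => e3 b), ← sum_range (fun b => if b ≤ m then g b else 0),
      ← sum_filter]
    apply sum_congr _ (fun _ _ => rfl)
    ext b
    rw [mem_filter, mem_range, mem_range]
    omega
  rw [e2 h (fun b => 2 * ((2 * h).choose (2 * b) : R) * (x ^ 2) ^ (h - b) * (y ^ 2) ^ b) (by omega),
    e2 (2 * h) (fun b => (d1 : R) * ((x ^ 2) ^ (2 * h - b) * ((d2 : R) * y ^ 2) ^ b *
        ((2 * h).choose b : R))) (le_refl _), ← expand_sum, ← mul_sum]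
  congr 2
  rw [add_comm (x ^ 2), add_pow]
  apply sum_congr rfl
  intro i _
  ring

/-- The matrix of the problem. -/
def M3 (p : ℕ) [Fact p.Prime] (d1 d2 : ℤ) : Matrix (Fin ((p + 1) / 2)) (Fin ((p + 1) / 2)) ℤ :=
  Matrix.of fun j k =>
    legendreSym p (((j : ℕ) : ℤ) + ((k : ℕ) : ℤ)) + legendreSym p (((j : ℕ) : ℤ) - ((k : ℕ) : ℤ)) +
      d1 * legendreSym p (((j : ℕ) : ℤ) ^ 2 + d2 * ((k : ℕ) : ℤ) ^ 2)

/-- the squares, with zero -/
def yy (p n : ℕ) (j : Fin n) : ZMod p := ((j : ℕ) : ZMod p) ^ 2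

lemma det_M3 {p : ℕ} [Fact p.Prime] {h : ℕ} (hp : p = 4 * h + 1) (d1 d2 : ℤ) :
    ((M3 p d1 d2).det : ZMod p) =
      (vandermonde (yy p (2 * h + 1))).det ^ 2 * ((CM h d1 d2).det : ℤ) := by
  have key : ∀ n : ℕ, n = 2 * h + 1 → (Matrix.of fun j k : Fin n =>
      ((((j : ℕ) : ZMod p) + ((k : ℕ) : ZMod p)) ^ (2 * h) +
        (((j : ℕ) : ZMod p) - ((k : ℕ) : ZMod p)) ^ (2 * h) +
        (d1 : ZMod p) * (((j : ℕ) : ZMod p) ^ 2 + (d2 : ZMod p) * ((k : ℕ) : ZMod p) ^ 2) ^
          (2 * h))).det = (vandermonde (yy p (2 * h + 1))).det ^ 2 * ((CM h d1 d2).det : ℤ) := by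
    rintro n rfl
    have h1 : (Matrix.of fun j k : Fin (2 * h + 1) =>
      ((((j : ℕ) : ZMod p) + ((k : ℕ) : ZMod p)) ^ (2 * h) +
        (((j : ℕ) : ZMod p) - ((k : ℕ) : ZMod p)) ^ (2 * h) +
        (d1 : ZMod p) * (((j : ℕ) : ZMod p) ^ 2 + (d2 : ZMod p) * ((k : ℕ) : ZMod p) ^ 2) ^
          (2 * h))) =
      vandermonde (yy p (2 * h + 1)) * (CM h d1 d2).map (Int.castRingHom (ZMod p)) *
        (vandermonde (yy p (2 * h + 1)))ᵀ := by
      ext j k
      rw [of_apply, entry_expand, mul_apply, sum_comm]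
      apply sum_congr rfl
      intro b _
      rw [mul_apply, sum_mul]
      apply sum_congr rfl
      intro a _
      rw [vandermonde_apply, transpose_apply, vandermonde_apply, map_apply]
      simp [yy]
    rw [h1, det_mul, det_mul, det_transpose]
    have h2 : ((CM h d1 d2).map (Int.castRingHom (ZMod p))).det = ((CM h d1 d2).det : ZMod p) := by
      rw [← RingHom.mapMatrix_apply, ← RingHom.map_det]
      simp
    rw [h2]
    ring
  rw [← key ((p + 1) / 2) (by omega)]
  have h2 : ((M3 p d1 d2).det : ZMod p) = ((M3 p d1 d2).map (Int.castRingHom (ZMod p))).det := by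
    rw [← RingHom.mapMatrix_apply, ← RingHom.map_det]
    simp
  rw [h2]
  congr 1
  ext j k
  rw [map_apply, M3, of_apply, of_apply]
  simp only [map_add, map_mul, eq_intCast]
  rw [legendreSym.eq_pow, legendreSym.eq_pow, legendreSym.eq_pow, show p / 2 = 2 * h by omega]
  push_cast
  rfl

lemma yy_inj {p : ℕ} [Fact p.Prime] {n : ℕ} (hn : 2 * n ≤ p + 1) :
    Function.Injective (yy p n) := by
  intro j k hjk
  have hj := j.2
  have hk := k.2
  rw [yy, yy, sq_eq_sq_iff_eq_or_eq_neg] at hjk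
  rcases hjk with h | h
  · rw [ZMod.natCast_eq_natCast_iff'] at h
    rw [Nat.mod_eq_of_lt (by omega), Nat.mod_eq_of_lt (by omega)] at h
    exact Fin.ext h
  · have h1 : (((j : ℕ) + (k : ℕ) : ℕ) : ZMod p) = 0 := by
      push_cast
      linear_combination h
    rw [ZMod.natCast_eq_zero_iff] at h1
    rcases Nat.eq_zero_or_pos ((j : ℕ) + k) with h2 | h2
    · exact Fin.ext (by omega)
    · have := Nat.le_of_dvd h2 h1
      omega

/-- the theorem -/
theorem ch_det_M3 {p : ℕ} [Fact p.Prime] {h : ℕ} (h0 : 0 < h) (hp : p = 4 * h + 1) (d1 d2 : ℤ)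
    (hd1 : d1 = 1 ∨ d1 = -1) (hd2 : d2 = 1 ∨ d2 = -1) :
    legendreSym p (2 * (M3 p d1 d2).det) = 1 := by
  have h1 : legendreSym p (2 * (M3 p d1 d2).det) =
      ch p (((2 * (M3 p d1 d2).det : ℤ)) : ZMod p) := rfl
  have e1 : ∀ d : ℤ, (d = 1 ∨ d = -1) → ch p (d : ZMod p) = 1 := by
    rintro d (rfl | rfl)
    · rw [Int.cast_one, ch_one]
    · rw [Int.cast_neg, Int.cast_one, ch_neg_one (by omega)]
  have h2 := congrArg (fun x : ℤ => ch p (x : ZMod p)) (CM_det h h0 d1 d2)
  simp only [Int.cast_mul, Int.cast_prod, ch_mul, ch_prod] at h2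
  rw [e1 _ (by
    rcases Int.units_eq_one_or (Perm.sign (Fin.revPerm (n := 2 * h + 1))) with h | h <;> rw [h]
      <;> simp), one_mul] at h2
  have h3 : ∏ b ∈ range (2 * h + 1), ch p (d1 : ZMod p) * (ch p ((d2 ^ b : ℤ) : ZMod p) *
      ch p (((2 * h).choose b : ℤ) : ZMod p)) = (-1) ^ h := by
    have h4 : ∀ b ∈ range (2 * h + 1), ch p (d1 : ZMod p) * (ch p ((d2 ^ b : ℤ) : ZMod p) *
      ch p (((2 * h).choose b : ℤ) : ZMod p)) =
      (-1) ^ h * (ch p (b.factorial : ℕ) * ch p ((2 * h - b).factorial : ℕ)) := by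
      intro b hb
      rw [mem_range] at hb
      rw [e1 d1 hd1, Int.cast_pow, ch_pow, e1 d2 hd2, one_pow, Int.cast_natCast,
        ch_choose (show 2 * h < p by omega) (show b ≤ 2 * h by omega), ch_half_fac hp]
      ring
    rw [prod_congr rfl h4, prod_mul_distrib, prod_const, card_range, prod_mul_distrib]
    have h5 := prod_range_reflect (fun b => ch p (b.factorial : ℕ)) (2 * h + 1)
    have h6 : ∏ b ∈ range (2 * h + 1), ch p ((2 * h - b).factorial : ℕ) =
        ∏ b ∈ range (2 * h + 1), ch p (b.factorial : ℕ) := by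
      rw [← h5]
      apply prod_congr rfl
      intro b _
      rw [show 2 * h + 1 - 1 - b = 2 * h - b by omega]
    rw [h6, ← prod_mul_distrib, prod_congr rfl (g := fun _ => (1 : ℤ)) (fun b hb => by
      rw [mem_range] at hb
      exact ch_sq (fac_ne (by omega))), prod_const_one, mul_one, pow_succ, ← pow_mul, mul_comm h,
      mul_assoc, pow_mul]
    simp
  rw [h3] at h2
  rw [h1, Int.cast_mul, det_M3 hp, ch_mul, ch_mul, ch_pow, h2]
  have hV : (vandermonde (yy p (2 * h + 1))).det ≠ 0 :=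
    det_vandermonde_ne_zero_iff.2 (yy_inj (by omega))
  have h7 : ch p (vandermonde (yy p (2 * h + 1))).det ^ 2 = 1 := by
    rw [sq]; exact ch_sq hV
  rw [h7, one_mul, show (((2 : ℤ)) : ZMod p) = 2 by norm_num, ch_two hp, ← mul_pow]
  simp

end Pool.Agent.Q23.LD
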