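import Pool.Agent.Q23.LD.Fin

/-!
# The explicit values of the sets `E(m)`, `m = 5, 7, 9, 11`
-/

set_option autoImplicit false

namespace Pool.Agent.Q23.LD

open Finset

/-- membership in `E(m)` -/
def InE (m p : ℕ) : Prop := ∃ _ : Fact p.Prime, p % 4 = 1 ∧ (p : ℤ) ∣ (MM m p).det

lemma inE_small {m p : ℕ} (n : ℕ) (hn : p = 2 * n + 1) (hp : p.Prime) (h4 : p % 4 = 1)
    (h : ∃ b < n, (p : ℤ) ∣ cc n m b) : InE m p := by
  have : Fact p.Prime := ⟨hp⟩
  refine ⟨⟨hp⟩, h4, ?_⟩
  have hn2 : (p - 1) / 2 = n := by omega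
  rw [det_MM_eq_zero_iff m p (by omega), hn2]
  exact h

lemma not_inE_small {m p : ℕ} (n : ℕ) (hn : p = 2 * n + 1)
    (h : ¬ ∃ b < n, (p : ℤ) ∣ cc n m b) : ¬ InE m p := by
  rintro ⟨hp, h4, h5⟩
  have hn2 : (p - 1) / 2 = n := by omega
  rw [det_MM_eq_zero_iff m p (by omega), hn2] at h5
  exact h h5

lemma inE_large {m p : ℕ} (hp : p.Prime) (h4 : p % 4 = 1) (hm : 2 * m + 1 < p) (b : ℕ)
    (hb : b ≤ m) (h : p ∣ BB m b + BB m (m - b)) : InE m p := by
  have : Fact p.Prime := ⟨hp⟩
  exact ⟨⟨hp⟩, h4, (dvd_iff h4 hm).2 ⟨b, hb, h⟩⟩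

lemma inE_list {m p : ℕ} (L : List ℕ) (k : ℕ) (hL : ∀ q ∈ L, q.Prime)
    (h1 : ∀ b < m + 1, BB m b + BB m (m - b) ∣ L.prod ^ k) (h : InE m p)
    (hm : 2 * m + 1 < p) : p ∈ L := by
  obtain ⟨hp, h4, h5⟩ := h
  obtain ⟨b, hb, h6⟩ := (dvd_iff h4 hm).1 h5
  have h7 := h6.trans (h1 b (by omega))
  have h8 : p ∣ L.prod := hp.out.dvd_of_dvd_pow h7
  exact mem_list_primes_of_dvd_prod hp.out.prime (fun q hq => (hL q hq).prime) h8

lemma small_cases {m p : ℕ} (h : InE m p) (hp : p ≤ 23) : p = 5 ∨ p = 13 ∨ p = 17 := by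
  obtain ⟨⟨hp'⟩, h4, _⟩ := h
  have h9 : p ≠ 1 := hp'.ne_one
  have h10 : p ≠ 9 := by rintro rfl; revert hp'; norm_num
  have h11 : p ≠ 21 := by rintro rfl; revert hp'; norm_num
  omega

theorem val5 (p : ℕ) : InE 5 p ↔ p = 29 := by
  constructor
  · intro h
    rcases Nat.lt_or_ge (2 * 5 + 1) p with h1 | h1
    · have h2 := inE_list [2, 3, 5, 7, 11, 29] 5 (by norm_num) (by decide +kernel) h h1
      have h4 := h.2.1
      simp only [List.mem_cons, List.not_mem_nil, or_false] at h2
      rcases h2 with rfl | rfl | rfl | rfl | rfl | rfl <;> revert h4 h1 <;> norm_num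
    · rcases small_cases h (by omega) with rfl | rfl | rfl
      · exact absurd h (not_inE_small 2 rfl (by decide +kernel))
      · omega
      · omega
  · rintro rfl
    exact inE_large (by norm_num) (by norm_num) (by norm_num) 0 (by norm_num) (by decide +kernel)

theorem val7 (p : ℕ) : InE 7 p ↔ p = 13 ∨ p = 53 ∨ p = 2477 := by
  constructor
  · intro h
    rcases Nat.lt_or_ge (2 * 7 + 1) p with h1 | h1
    · have h2 := inE_list [2, 3, 5, 7, 11, 13, 53, 743, 2477] 4 (by norm_num)
        (by decide +kernel) h h1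
      have h4 := h.2.1
      simp only [List.mem_cons, List.not_mem_nil, or_false] at h2
      rcases h2 with rfl | rfl | rfl | rfl | rfl | rfl | rfl | rfl | rfl <;> revert h4 h1 <;>
        norm_num
    · rcases small_cases h (by omega) with rfl | rfl | rfl
      · exact absurd h (not_inE_small 2 rfl (by decide +kernel))
      · exact Or.inl rfl
      · omega
  · rintro (rfl | rfl | rfl)
    · exact inE_small 6 rfl (by norm_num) (by norm_num) (by decide +kernel)
    · exact inE_large (by norm_num) (by norm_num) (by norm_num) 2 (by norm_num)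
        (by decide +kernel)
    · exact inE_large (by norm_num) (by norm_num) (by norm_num) 0 (by norm_num)
        (by decide +kernel)

theorem val9 (p : ℕ) : InE 9 p ↔ p = 13 ∨ p = 17 ∨ p = 29 ∨ p = 1201 := by
  constructor
  · intro h
    rcases Nat.lt_or_ge (2 * 9 + 1) p with h1 | h1
    · have h2 := inE_list [2, 3, 5, 7, 11, 13, 17, 19, 29, 47, 1201] 8 (by norm_num)
        (by decide +kernel) h h1
      have h4 := h.2.1
      simp only [List.mem_cons, List.not_mem_nil, or_false] at h2
      rcases h2 with rfl | rfl | rfl | rfl | rfl | rfl | rfl | rfl | rfl | rfl | rfl <;>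
        revert h4 h1 <;> norm_num
    · rcases small_cases h (by omega) with rfl | rfl | rfl
      · exact absurd h (not_inE_small 2 rfl (by decide +kernel))
      · exact Or.inl rfl
      · exact Or.inr (Or.inl rfl)
  · rintro (rfl | rfl | rfl | rfl)
    · exact inE_small 6 rfl (by norm_num) (by norm_num) (by decide +kernel)
    · exact inE_small 8 rfl (by norm_num) (by norm_num) (by decide +kernel)
    · exact inE_large (by norm_num) (by norm_num) (by norm_num) 0 (by norm_num)
        (by decide +kernel)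
    · exact inE_large (by norm_num) (by norm_num) (by norm_num) 1 (by norm_num)
        (by decide +kernel)

theorem val11 (p : ℕ) : InE 11 p ↔ p = 17 ∨ p = 29 ∨ p = 1597 := by
  constructor
  · intro h
    rcases Nat.lt_or_ge (2 * 11 + 1) p with h1 | h1
    · have h2 := inE_list [2, 3, 5, 7, 11, 13, 17, 19, 23, 29, 31, 43, 367, 859, 1597] 9
        (by norm_num) (by decide +kernel) h h1
      have h4 := h.2.1
      simp only [List.mem_cons, List.not_mem_nil, or_false] at h2
      rcases h2 with rfl | rfl | rfl | rfl | rfl | rfl | rfl | rfl | rfl | rfl | rfl | rfl |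
        rfl | rfl | rfl <;> revert h4 h1 <;> norm_num
    · rcases small_cases h (by omega) with rfl | rfl | rfl
      · exact absurd h (not_inE_small 2 rfl (by decide +kernel))
      · exact absurd h (not_inE_small 6 rfl (by decide +kernel))
      · exact Or.inl rfl
  · rintro (rfl | rfl | rfl)
    · exact inE_small 8 rfl (by norm_num) (by norm_num) (by decide +kernel)
    · exact inE_large (by norm_num) (by norm_num) (by norm_num) 3 (by norm_num)
        (by decide +kernel)
    · exact inE_large (by norm_num) (by norm_num) (by norm_num) 2 (by norm_num)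
        (by decide +kernel)

end Pool.Agent.Q23.LD
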